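import Mathlib
import Pool.Agent.Work.MP_3e01db_pr.Objects
import Pool.Agent.Work.MP_3e01db_pr.All

/-!
# Two independent Brownian continuum random trees are almost surely not quasisymmetric

The objects (the real tree `CRTree w` coded by a continuous function `w` on `[0,1]`,
quasisymmetric equivalence `QSEquiv`, the standard Brownian excursion `IsBrownianExcursion`) are
defined in `Pool/Agent/Work/MP_3e01db_pr/Objects.lean`.

Idea of the proof.  At infinitely many scales the first tree has a cluster of `N = R^J` nearly
equidistant branch points whose labels (relative heights of side branches at `J` prescribed
scales) carry `N log N` independent bits; a quasisymmetric map must transport the labels into a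
cluster of the second tree, up to `O(N)` bits of freedom.  A union bound over the possible
transported clusters (Borel-Cantelli over `J`) shows that this almost surely never happens.
-/

open MeasureTheory ProbabilityTheory MP3e01
open scoped unitInterval

namespace Pool.Agent.Results.MP_3e01db_pr.NotQuasisymmetric

universe u

/-- Let `e, e'` be independent standard Brownian excursions of duration `1`.  Almost surely the
Brownian continuum random trees coded by `e` and `e'` are not quasisymmetrically equivalent. -/
theorem result {Ω : Type u} [MeasurableSpace Ω] (P : Measure Ω) [IsProbabilityMeasure P]
    (e e' : Ω → C(I, ℝ)) (he : IsBrownianExcursion e P) (he' : IsBrownianExcursion e' P)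
    (hind : IndepFun (fun ω (t : I) => e ω t) (fun ω (t : I) => e' ω t) P) :
    ∀ᵐ ω ∂P, ¬ QSEquiv (CRTree (e ω)) (CRTree (e' ω)) :=
  all_result P e e' he he' hind

end Pool.Agent.Results.MP_3e01db_pr.NotQuasisymmetric
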